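import Mathlib
import Pool.Agent.R97.Promo

/-!
# MP_e89dd6_co : the extended promotion sorting profile need not be unimodal

The disjoint union of two chains with two elements and one point has `n = 5` elements and sorting
profile `30, 24, 30, 24, 12`.
-/

namespace Pool.Agent.Results.MP_e89dd6_co.NotUnimodal

open Pool.Agent.R97.Promo

/-- The profile `â_k(P)`: `â_0(P) = a_0(P)` and `â_k(P) = a_k(P) - a_{k-1}(P)` for `k ≥ 1`, where
`a_k(P)` is the number of labelings `L` of `P` such that `∂^k(L)` is a linear extension. -/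
noncomputable def profile (P : Type) [PartialOrder P] [Fintype P] (k : ℕ) : ℤ :=
  if k = 0 then (sortCount P 0 : ℤ) else (sortCount P k : ℤ) - (sortCount P (k - 1) : ℤ)

/-- The sequence `b 0, ..., b (n-1)` is unimodal. -/
def Unimodal (b : ℕ → ℤ) (n : ℕ) : Prop :=
  ∃ j < n, (∀ i < j, b i ≤ b (i + 1)) ∧ (∀ i, j ≤ i → i + 1 < n → b (i + 1) ≤ b i)

/-- Five elements: two chains `a < d`, `b < e` and the point `c`. -/
inductive Q5 | a | b | c | d | e
  deriving DecidableEq, Fintype

open Q5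

/-- The order of `Q5`. -/
def Q5.rel (x y : Q5) : Prop := x = y ∨ (x = a ∧ y = d) ∨ (x = b ∧ y = e)

instance : DecidableRel Q5.rel := fun x y => by unfold Q5.rel; infer_instance

instance : LE Q5 := ⟨Q5.rel⟩

instance (x y : Q5) : Decidable (x ≤ y) := inferInstanceAs (Decidable (Q5.rel x y))

instance : PartialOrder Q5 where
  le := Q5.rel
  le_refl := by decide
  le_trans := by decide
  le_antisymm := by decide

instance (x y : Q5) : Decidable (x < y) := decidable_of_iff _ lt_iff_le_not_ge.symm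

theorem lt_iff (x y : Q5) : x < y ↔ ((x = a ∧ y = d) ∨ (x = b ∧ y = e)) := by
  revert x y; decide

theorem card_Q5 : Fintype.card Q5 = 5 := by decide

theorem isSucc_iff (L : Q5 → ℕ) (x y : Q5) :
    IsSucc L x y ↔ ((x = a ∧ y = d) ∨ (x = b ∧ y = e)) := by
  constructor
  · intro h
    exact (lt_iff x y).1 h.1
  · rintro (⟨rfl, rfl⟩ | ⟨rfl, rfl⟩)
    · refine ⟨(lt_iff _ _).2 (by simp), fun z hz => ?_⟩
      rcases (lt_iff _ _).1 hz with ⟨_, rfl⟩ | ⟨h, _⟩
      · exact le_rfl
      · cases h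
    · refine ⟨(lt_iff _ _).2 (by simp), fun z hz => ?_⟩
      rcases (lt_iff _ _).1 hz with ⟨h, _⟩ | ⟨_, rfl⟩
      · cases h
      · exact le_rfl

theorem inChain_iff (L : Q5 → ℕ) (x : Q5) :
    InChain L x ↔ (L x = 1 ∨ (x = d ∧ L a = 1) ∨ (x = e ∧ L b = 1)) := by
  constructor
  · intro h
    induction h with
    | base v hv => exact Or.inl hv
    | step v w _ hw ih =>
      rcases (isSucc_iff L v w).1 hw with ⟨rfl, rfl⟩ | ⟨rfl, rfl⟩
      · rcases ih with h | ⟨h, _⟩ | ⟨h, _⟩
        · exact Or.inr (Or.inl ⟨rfl, h⟩)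
        · cases h
        · cases h
      · rcases ih with h | ⟨h, _⟩ | ⟨h, _⟩
        · exact Or.inr (Or.inr ⟨rfl, h⟩)
        · cases h
        · cases h
  · rintro (h | ⟨rfl, h⟩ | ⟨rfl, h⟩)
    · exact InChain.base x h
    · exact InChain.step a d (InChain.base a h) ((isSucc_iff L _ _).2 (by simp))
    · exact InChain.step b e (InChain.base b h) ((isSucc_iff L _ _).2 (by simp))

/-- The labels as a tuple. -/
def toT (L : Q5 → ℕ) : ℕ × ℕ × ℕ × ℕ × ℕ := (L a, L b, L c, L d, L e)

/-- Promotion on tuples. -/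
def stepT (t : ℕ × ℕ × ℕ × ℕ × ℕ) : ℕ × ℕ × ℕ × ℕ × ℕ :=
  (if t.1 = 1 then t.2.2.2.1 - 1 else t.1 - 1,
   if t.2.1 = 1 then t.2.2.2.2 - 1 else t.2.1 - 1,
   if t.2.2.1 = 1 then 5 else t.2.2.1 - 1,
   if t.2.2.2.1 = 1 ∨ t.1 = 1 then 5 else t.2.2.2.1 - 1,
   if t.2.2.2.2 = 1 ∨ t.2.1 = 1 then 5 else t.2.2.2.2 - 1)

theorem promote_of_succ {L : Q5 → ℕ} {x y : Q5} (h : IsSucc L x y) (hc : InChain L x) :
    promote L x = L y - 1 := by
  unfold promote
  have hex : ∃ y, IsSucc L x y := ⟨y, h⟩
  rw [if_pos hc, dif_pos hex]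
  have h2 := hex.choose_spec
  have h3 := (isSucc_iff L _ _).1 h2
  have h4 := (isSucc_iff L _ _).1 h
  have : hex.choose = y := by
    rcases h3 with ⟨h5, h6⟩ | ⟨h5, h6⟩ <;> rcases h4 with ⟨h7, h8⟩ | ⟨h7, h8⟩
    · rw [h6, h8]
    · rw [h5] at h7; cases h7
    · rw [h5] at h7; cases h7
    · rw [h6, h8]
  rw [this]

theorem promote_of_not_succ {L : Q5 → ℕ} {x : Q5} (h : ¬ ∃ y, IsSucc L x y) (hc : InChain L x) :
    promote L x = 5 := by
  unfold promote
  rw [if_pos hc, dif_neg h, card_Q5]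

theorem promote_of_not_inChain {L : Q5 → ℕ} {x : Q5} (hc : ¬ InChain L x) :
    promote L x = L x - 1 := by
  unfold promote
  rw [if_neg hc]

theorem toT_promote (L : Q5 → ℕ) : toT (promote L) = stepT (toT L) := by
  have ha : promote L a = if L a = 1 then L d - 1 else L a - 1 := by
    split_ifs with h
    · exact promote_of_succ ((isSucc_iff L _ _).2 (by simp)) ((inChain_iff L _).2 (Or.inl h))
    · apply promote_of_not_inChain
      rw [inChain_iff]
      simp [h]
  have hb : promote L b = if L b = 1 then L e - 1 else L b - 1 := by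
    split_ifs with h
    · exact promote_of_succ ((isSucc_iff L _ _).2 (by simp)) ((inChain_iff L _).2 (Or.inl h))
    · apply promote_of_not_inChain
      rw [inChain_iff]
      simp [h]
  have hc : promote L c = if L c = 1 then 5 else L c - 1 := by
    split_ifs with h
    · apply promote_of_not_succ _ ((inChain_iff L _).2 (Or.inl h))
      rintro ⟨y, hy⟩
      have := (isSucc_iff L _ _).1 hy
      simp at this
    · apply promote_of_not_inChain
      rw [inChain_iff]
      simp [h]
  have hd : promote L d = if L d = 1 ∨ L a = 1 then 5 else L d - 1 := by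
    split_ifs with h
    · apply promote_of_not_succ _ ((inChain_iff L _).2 (by simpa using h))
      rintro ⟨y, hy⟩
      have := (isSucc_iff L _ _).1 hy
      simp at this
    · apply promote_of_not_inChain
      rw [inChain_iff]
      simpa using h
  have he : promote L e = if L e = 1 ∨ L b = 1 then 5 else L e - 1 := by
    split_ifs with h
    · apply promote_of_not_succ _ ((inChain_iff L _).2 (by simpa using h))
      rintro ⟨y, hy⟩
      have := (isSucc_iff L _ _).1 hy
      simp at this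
    · apply promote_of_not_inChain
      rw [inChain_iff]
      simpa using h
  unfold toT stepT
  rw [ha, hb, hc, hd, he]

theorem toT_iterate (L : Q5 → ℕ) (k : ℕ) : toT (promote^[k] L) = stepT^[k] (toT L) := by
  induction k generalizing L with
  | zero => rfl
  | succ k ih => rw [Function.iterate_succ_apply, Function.iterate_succ_apply, ih, toT_promote]

theorem toT_injective : Function.Injective toT := by
  intro L M h
  unfold toT at h
  simp only [Prod.mk.injEq] at h
  funext x
  cases x <;> tauto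

theorem isLinExt_iff (L : Q5 → ℕ) :
    IsLinExt L ↔ ((toT L).1 ≤ (toT L).2.2.2.1 ∧ (toT L).2.1 ≤ (toT L).2.2.2.2) := by
  constructor
  · intro h
    exact ⟨h a d (Or.inr (Or.inl ⟨rfl, rfl⟩)), h b e (Or.inr (Or.inr ⟨rfl, rfl⟩))⟩
  · rintro ⟨h1, h2⟩ x y (rfl | ⟨rfl, rfl⟩ | ⟨rfl, rfl⟩)
    · exact le_rfl
    · exact h1
    · exact h2

/-- All tuples with entries in `{1, ..., 5}`. -/
def box : Finset (ℕ × ℕ × ℕ × ℕ × ℕ) :=
  Finset.Icc 1 5 ×ˢ (Finset.Icc 1 5 ×ˢ (Finset.Icc 1 5 ×ˢ (Finset.Icc 1 5 ×ˢ Finset.Icc 1 5)))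

/-- The entries of the tuple are distinct. -/
def Dist (t : ℕ × ℕ × ℕ × ℕ × ℕ) : Prop :=
  t.1 ≠ t.2.1 ∧ t.1 ≠ t.2.2.1 ∧ t.1 ≠ t.2.2.2.1 ∧ t.1 ≠ t.2.2.2.2 ∧
  t.2.1 ≠ t.2.2.1 ∧ t.2.1 ≠ t.2.2.2.1 ∧ t.2.1 ≠ t.2.2.2.2 ∧
  t.2.2.1 ≠ t.2.2.2.1 ∧ t.2.2.1 ≠ t.2.2.2.2 ∧ t.2.2.2.1 ≠ t.2.2.2.2

instance : DecidablePred Dist := fun t => by unfold Dist; infer_instance

theorem isLabeling_iff (L : Q5 → ℕ) : IsLabeling L ↔ (toT L ∈ box ∧ Dist (toT L)) := by
  unfold IsLabeling
  rw [card_Q5]
  constructor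
  · rintro ⟨h1, h2, h3⟩
    have h4 : ∀ x, L x ∈ Finset.Icc 1 5 := by
      intro x
      have := h1 (Set.mem_univ x)
      simpa using this
    have h5 : ∀ x y, x ≠ y → L x ≠ L y := by
      intro x y hxy h
      exact hxy (h2 (Set.mem_univ x) (Set.mem_univ y) h)
    refine ⟨?_, ?_⟩
    · unfold box toT
      simp only [Finset.mem_product]
      exact ⟨h4 a, h4 b, h4 c, h4 d, h4 e⟩
    · unfold Dist toT
      refine ⟨?_, ?_, ?_, ?_, ?_, ?_, ?_, ?_, ?_, ?_⟩ <;> exact h5 _ _ (by decide)
  · rintro ⟨h1, h2⟩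
    unfold box toT at h1
    simp only [Finset.mem_product] at h1
    obtain ⟨h1a, h1b, h1c, h1d, h1e⟩ := h1
    unfold Dist toT at h2
    have hmaps : Set.MapsTo L Set.univ (Set.Icc 1 5) := by
      intro x _
      cases x
      · simpa using h1a
      · simpa using h1b
      · simpa using h1c
      · simpa using h1d
      · simpa using h1e
    have hinj : Function.Injective L := by
      intro x y h
      cases x <;> cases y <;> first | rfl | (exfalso; simp_all)
    refine ⟨hmaps, hinj.injOn, ?_⟩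
    have h6 : Finset.univ.image L = Finset.Icc 1 5 := by
      apply Finset.eq_of_subset_of_card_le
      · intro y hy
        obtain ⟨x, _, rfl⟩ := Finset.mem_image.1 hy
        have := hmaps (Set.mem_univ x)
        simpa using this
      · rw [Finset.card_image_of_injective _ hinj, Finset.card_univ, card_Q5]
        simp
    intro y hy
    have : y ∈ Finset.univ.image L := by
      rw [h6]; simpa using hy
    obtain ⟨x, _, rfl⟩ := Finset.mem_image.1 this
    exact ⟨x, Set.mem_univ x, rfl⟩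

theorem toT_surj (t : ℕ × ℕ × ℕ × ℕ × ℕ) : ∃ L, toT L = t := by
  refine ⟨fun x => match x with
    | a => t.1
    | b => t.2.1
    | c => t.2.2.1
    | d => t.2.2.2.1
    | e => t.2.2.2.2, rfl⟩

/-- The check on tuples. -/
def good (k : ℕ) (t : ℕ × ℕ × ℕ × ℕ × ℕ) : Prop :=
  Dist t ∧ (stepT^[k] t).1 ≤ (stepT^[k] t).2.2.2.1 ∧ (stepT^[k] t).2.1 ≤ (stepT^[k] t).2.2.2.2

instance (k : ℕ) : DecidablePred (good k) := fun t => by unfold good; infer_instance

theorem sortCount_eq (k : ℕ) : sortCount Q5 k = (box.filter (good k)).card := by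
  unfold sortCount
  rw [← Set.ncard_image_of_injective _ toT_injective, ← Set.ncard_coe_finset]
  congr 1
  ext t
  simp only [Set.mem_image, Set.mem_setOf_eq, Finset.coe_filter]
  constructor
  · rintro ⟨L, ⟨h1, h2⟩, rfl⟩
    rw [isLabeling_iff] at h1
    rw [isLinExt_iff, toT_iterate] at h2
    exact ⟨h1.1, h1.2, h2⟩
  · rintro ⟨h1, h2, h3⟩
    obtain ⟨L, rfl⟩ := toT_surj t
    refine ⟨L, ⟨(isLabeling_iff L).2 ⟨h1, h2⟩, ?_⟩, rfl⟩
    rw [isLinExt_iff, toT_iterate]
    exact h3

theorem count0 : sortCount Q5 0 = 30 := by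
  rw [sortCount_eq]; decide +kernel

theorem count1 : sortCount Q5 1 = 54 := by
  rw [sortCount_eq]; decide +kernel

theorem count2 : sortCount Q5 2 = 84 := by
  rw [sortCount_eq]; decide +kernel

theorem count3 : sortCount Q5 3 = 108 := by
  rw [sortCount_eq]; decide +kernel

theorem count4 : sortCount Q5 4 = 120 := by
  rw [sortCount_eq]; decide +kernel

/-- **MP_e89dd6_co (Q1), negative answer.**  The sorting profile of a finite poset under extended
promotion need not be unimodal.  The disjoint union of two `2`-element chains and a point has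
profile `30, 24, 30, 24, 12`. -/
theorem result :
    (¬ ∀ (P : Type) [PartialOrder P] [Fintype P] [Nonempty P],
        Unimodal (profile P) (Fintype.card P)) ∧
    Fintype.card Q5 = 5 ∧
    profile Q5 0 = 30 ∧ profile Q5 1 = 24 ∧ profile Q5 2 = 30 ∧ profile Q5 3 = 24 ∧
    profile Q5 4 = 12 := by
  have p0 : profile Q5 0 = 30 := by
    simp [profile, count0]
  have p1 : profile Q5 1 = 24 := by
    simp [profile, count0, count1]
  have p2 : profile Q5 2 = 30 := by
    simp [profile, count1, count2]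
  have p3 : profile Q5 3 = 24 := by
    simp [profile, count2, count3]
  have p4 : profile Q5 4 = 12 := by
    simp [profile, count3, count4]
  refine ⟨?_, card_Q5, p0, p1, p2, p3, p4⟩
  intro h
  haveI : Nonempty Q5 := ⟨a⟩
  obtain ⟨j, hj, h1, h2⟩ := h Q5
  rw [card_Q5] at hj h2
  by_cases hj0 : j = 0
  · have := h2 1 (by omega) (by omega)
    rw [p1, p2] at this
    norm_num at this
  · have := h1 0 (by omega)
    rw [p0, p1] at this
    norm_num at this

end Pool.Agent.Results.MP_e89dd6_co.NotUnimodal
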